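import Pool.Agent.H50.EC.Targets

/-! The graph has no even pair: every nonadjacent pair has a chordless path of length 3 or 5. -/

set_option autoImplicit false

namespace Pool.Agent.H44.EC

open Pool.Agent.H50.EC

/-- a chordless path of length 3 -/
def c3 (x y a b : Nat) : Bool :=
  A x a && A a b && A b y && !A x b && !A a y

/-- a chordless path of length 5 -/
def c5 (x y a b c d : Nat) : Bool :=
  A x a && A a b && A b c && A c d && A d y && !A x b && !A x c && !A x d && !A a c && !A a d &&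
    !A a y && !A b d && !A b y && !A c y

/-- the paths of length 5 -/
def tab : List (Nat × Nat × Nat × Nat × Nat × Nat) :=
  [(0, 1, 5, 7, 4, 2), (0, 2, 5, 6, 3, 1), (1, 0, 2, 4, 7, 5), (1, 4, 11, 0, 5, 7),
   (2, 0, 1, 3, 6, 5), (2, 3, 11, 0, 5, 6), (3, 2, 6, 5, 0, 11), (4, 1, 7, 5, 0, 11),
   (8, 9, 13, 15, 12, 10), (8, 10, 13, 14, 11, 9), (9, 8, 10, 12, 15, 13), (9, 12, 3, 8, 13, 15),
   (10, 8, 9, 11, 14, 13), (10, 11, 3, 8, 13, 14), (11, 10, 14, 13, 8, 3), (12, 9, 15, 13, 8, 3),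
   (16, 17, 21, 23, 20, 18), (16, 18, 21, 22, 19, 17), (17, 16, 18, 20, 23, 21),
   (17, 20, 3, 16, 21, 23), (18, 16, 17, 19, 22, 21), (18, 19, 3, 16, 21, 22),
   (19, 18, 22, 21, 16, 3), (20, 17, 23, 21, 16, 3), (24, 25, 29, 31, 28, 26),
   (24, 26, 29, 30, 27, 25), (25, 24, 26, 28, 31, 29), (25, 28, 3, 24, 29, 31),
   (26, 24, 25, 27, 30, 29), (26, 27, 3, 24, 29, 30), (27, 26, 30, 29, 24, 3),
   (28, 25, 31, 29, 24, 3)]

/-- the check for one pair -/
def chk (x y : Nat) : Bool :=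
  (List.range 32).any (fun a => (List.range 32).any fun b => c3 x y a b) ||
    tab.any fun t => t.1 == x && t.2.1 == y && t.2.2.1 < 32 && t.2.2.2.1 < 32 &&
      t.2.2.2.2.1 < 32 && t.2.2.2.2.2 < 32 &&
      c5 x y t.2.2.1 t.2.2.2.1 t.2.2.2.2.1 t.2.2.2.2.2

set_option maxRecDepth 100000 in
theorem chk_all (x y : Fin 32) : x ≠ y → A x.1 y.1 = false → chk x.1 y.1 = true := by
  revert x y; decide +kernel

theorem ne_of {x a y : Fin 32} (h1 : A x.1 a.1 = true) (h2 : A x.1 y.1 = false) : a ≠ y := by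
  rintro rfl
  rw [h1] at h2
  exact Bool.noConfusion h2

theorem ne_adj {x a : Fin 32} (h1 : A x.1 a.1 = true) : x ≠ a := by
  rintro rfl
  rw [A_irrefl] at h1
  exact Bool.noConfusion h1

/-- paths of length 3 -/
theorem path3 (x a b y : Fin 32) (hxy : x ≠ y) (nxy : A x.1 y.1 = false)
    (h1 : A x.1 a.1 = true) (h2 : A a.1 b.1 = true) (h3 : A b.1 y.1 = true)
    (nxb : A x.1 b.1 = false) (nay : A a.1 y.1 = false) :
    ∃ p : G.Walk x y, p.IsPath ∧
      (∀ i j : ℕ, i + 1 < j → j ≤ p.length → ¬ G.Adj (p.getVert i) (p.getVert j)) ∧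
      p.length % 2 = 1 := by
  have g1 : G.Adj x a := h1
  have g2 : G.Adj a b := h2
  have g3 : G.Adj b y := h3
  refine ⟨SimpleGraph.Walk.cons g1 (SimpleGraph.Walk.cons g2 (SimpleGraph.Walk.cons g3
    SimpleGraph.Walk.nil)), ?_, ?_, by simp [SimpleGraph.Walk.length_cons]⟩
  · rw [SimpleGraph.Walk.isPath_def]
    have e1 : x ≠ a := ne_adj h1
    have e2 : a ≠ b := ne_adj h2
    have e3 : b ≠ y := ne_adj h3
    have e4 : a ≠ y := ne_of h1 nxy
    have e5 : x ≠ b := by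
      rintro rfl
      rw [nxy] at h3
      exact Bool.noConfusion h3
    simp [e1, e2, e3, e4, e5, hxy]
  · intro i j hij hj hadj
    have hj' : j ≤ 3 := hj
    have k : ∀ u v : Fin 32, A u.1 v.1 = false → ¬ G.Adj u v := by
      intro u v h h'
      rw [G_adj, h] at h'
      exact Bool.noConfusion h'
    interval_cases j
    · omega
    · omega
    · obtain rfl : i = 0 := by omega
      exact k x b nxb hadj
    · obtain rfl | rfl : i = 0 ∨ i = 1 := by omega
      · exact k x y nxy hadj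
      · exact k a y nay hadj

/-- paths of length 5 -/
theorem path5 (x a b c d y : Fin 32) (hxy : x ≠ y) (nxy : A x.1 y.1 = false)
    (h1 : A x.1 a.1 = true) (h2 : A a.1 b.1 = true) (h3 : A b.1 c.1 = true)
    (h4 : A c.1 d.1 = true) (h5 : A d.1 y.1 = true)
    (nxb : A x.1 b.1 = false) (nxc : A x.1 c.1 = false) (nxd : A x.1 d.1 = false)
    (nac : A a.1 c.1 = false) (nad : A a.1 d.1 = false) (nay : A a.1 y.1 = false)
    (nbd : A b.1 d.1 = false) (nby : A b.1 y.1 = false) (ncy : A c.1 y.1 = false) :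
    ∃ p : G.Walk x y, p.IsPath ∧
      (∀ i j : ℕ, i + 1 < j → j ≤ p.length → ¬ G.Adj (p.getVert i) (p.getVert j)) ∧
      p.length % 2 = 1 := by
  have g1 : G.Adj x a := h1
  have g2 : G.Adj a b := h2
  have g3 : G.Adj b c := h3
  have g4 : G.Adj c d := h4
  have g5 : G.Adj d y := h5
  have s : ∀ {u v : Fin 32}, A u.1 v.1 = true → A v.1 u.1 = true := by
    intro u v h
    rw [A_symm]
    exact h
  refine ⟨SimpleGraph.Walk.cons g1 (SimpleGraph.Walk.cons g2 (SimpleGraph.Walk.cons g3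
    (SimpleGraph.Walk.cons g4 (SimpleGraph.Walk.cons g5 SimpleGraph.Walk.nil)))), ?_, ?_,
    by simp [SimpleGraph.Walk.length_cons]⟩
  · rw [SimpleGraph.Walk.isPath_def]
    have e1 : x ≠ a := ne_adj h1
    have e2 : a ≠ b := ne_adj h2
    have e3 : b ≠ c := ne_adj h3
    have e4 : c ≠ d := ne_adj h4
    have e5 : d ≠ y := ne_adj h5
    have e6 : a ≠ y := ne_of h1 nxy
    have e7 : a ≠ c := ne_of h1 nxc
    have e8 : a ≠ d := ne_of h1 nxd
    have e9 : b ≠ d := ne_of h2 nad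
    have e10 : b ≠ y := ne_of h2 nay
    have e11 : c ≠ y := ne_of h3 nby
    have e12 : x ≠ b := by
      rintro rfl
      rw [nxc] at h3
      exact Bool.noConfusion h3
    have e13 : x ≠ c := by
      rintro rfl
      rw [nxd] at h4
      exact Bool.noConfusion h4
    have e14 : x ≠ d := by
      rintro rfl
      rw [nxy] at h5
      exact Bool.noConfusion h5
    simp [e1, e2, e3, e4, e5, e6, e7, e8, e9, e10, e11, e12, e13, e14, hxy]
  · intro i j hij hj hadj
    have hj' : j ≤ 5 := hj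
    have k : ∀ u v : Fin 32, A u.1 v.1 = false → ¬ G.Adj u v := by
      intro u v h h'
      rw [G_adj, h] at h'
      exact Bool.noConfusion h'
    interval_cases j
    · omega
    · omega
    · obtain rfl : i = 0 := by omega
      exact k x b nxb hadj
    · obtain rfl | rfl : i = 0 ∨ i = 1 := by omega
      · exact k x c nxc hadj
      · exact k a c nac hadj
    · obtain rfl | rfl | rfl : i = 0 ∨ i = 1 ∨ i = 2 := by omega
      · exact k x d nxd hadj
      · exact k a d nad hadj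
      · exact k b d nbd hadj
    · obtain rfl | rfl | rfl | rfl : i = 0 ∨ i = 1 ∨ i = 2 ∨ i = 3 := by omega
      · exact k x y nxy hadj
      · exact k a y nay hadj
      · exact k b y nby hadj
      · exact k c y ncy hadj

theorem pf_NEP : T_NEP := by
  intro x y hxy hn
  have nxy : A x.1 y.1 = false := by
    rw [G_adj] at hn
    simpa using hn
  have h := chk_all x y hxy nxy
  unfold chk at h
  rw [Bool.or_eq_true] at h
  rcases h with h | h
  · rw [List.any_eq_true] at h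
    obtain ⟨a, ha, h⟩ := h
    rw [List.any_eq_true] at h
    obtain ⟨b, hb, h⟩ := h
    rw [List.mem_range] at ha hb
    unfold c3 at h
    simp only [Bool.and_eq_true, Bool.not_eq_true'] at h
    obtain ⟨⟨⟨⟨h1, h2⟩, h3⟩, h4⟩, h5⟩ := h
    exact path3 x ⟨a, ha⟩ ⟨b, hb⟩ y hxy nxy h1 h2 h3 h4 h5
  · rw [List.any_eq_true] at h
    obtain ⟨⟨x', y', a, b, c, d⟩, -, h⟩ := h
    unfold c5 at h
    simp only [Bool.and_eq_true, Bool.not_eq_true', beq_iff_eq, decide_eq_true_eq] at h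
    obtain ⟨⟨⟨⟨⟨⟨e1, e2⟩, ha⟩, hb⟩, hc⟩, hd⟩, ⟨⟨⟨⟨⟨⟨⟨⟨⟨⟨⟨⟨⟨h1, h2⟩, h3⟩, h4⟩, h5⟩, h6⟩, h7⟩, h8⟩,
      h9⟩, h10⟩, h11⟩, h12⟩, h13⟩, h14⟩⟩ := h
    exact path5 x ⟨a, ha⟩ ⟨b, hb⟩ ⟨c, hc⟩ ⟨d, hd⟩ y hxy nxy h1 h2 h3 h4 h5 h6 h7 h8 h9 h10 h11
      h12 h13 h14

end Pool.Agent.H44.EC
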